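import Pool.Agent.Lib_MP_1209e6_qx.Point

/-! PIECE POINTNE (helper47): Krull and a point with a transcendental coordinate, off the hypersurface `h = 0`. -/

set_option autoImplicit false

open MvPolynomial

noncomputable section

namespace Pool.Agent.QX

/-- a polynomial outside a prime ideal is outside a maximal ideal above it -/
theorem pt_maximal {k : Type} [Field k] (I : Ideal (MvPolynomial (Fin 10) k)) (hI : I.IsPrime)
    (p : MvPolynomial (Fin 10) k) (hp : p ∉ I) :
    ∃ M : Ideal (MvPolynomial (Fin 10) k), M.IsMaximal ∧ I ≤ M ∧ p ∉ M := by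
  by_contra hcon
  push Not at hcon
  apply hp
  have h1 : I.jacobson = I := IsJacobsonRing.out' I hI.isRadical
  rw [← h1, Ideal.jacobson, Ideal.mem_sInf]
  intro M hM
  exact hcon M hM.2 hM.1

/-- `exists_point` with an inequation `h ≠ 0` -/
theorem exists_point_ne (f : Fin 9 → MvPolynomial (Fin 10) ℂ) (h : MvPolynomial (Fin 10) ℂ)
    (y₀ : Fin 10 → ℂ) (h₀ : ∀ i, aeval y₀ (f i) = 0) (hh₀ : aeval y₀ h ≠ 0)
    (hrig : ∀ (k : Type) [Field k] [Algebra ℂ k] (y : Fin 10 → k), (∀ i, aeval y (f i) = 0) →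
      aeval y h ≠ 0 → y 0 ∈ Set.range (algebraMap ℂ k) → y 1 ∈ Set.range (algebraMap ℂ k) →
      y 2 ∈ Set.range (algebraMap ℂ k) → ∀ i, y i ∈ Set.range (algebraMap ℂ k))
    (k : Type) [Field k] [Algebra ℂ k] [IsAlgClosed k] (T : k) (hT : Transcendental ℂ T) :
    ∃ y : Fin 10 → k, (∀ i, aeval y (f i) = 0) ∧ aeval y h ≠ 0 ∧ (y 0 = T ∨ y 1 = T ∨ y 2 = T) := by
  classical
  set m : Ideal (MvPolynomial (Fin 10) ℂ) := vanishingIdeal ℂ ({y₀} : Set (Fin 10 → ℂ)) with hm
  have hmax : m.IsMaximal := isMaximal_iff_eq_vanishingIdeal_singleton.mpr ⟨y₀, rfl⟩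
  have hI : Ideal.span (Set.range f) ≤ m := by
    rw [Ideal.span_le]
    rintro _ ⟨i, rfl⟩
    exact (mem_vanishingIdeal_singleton_iff y₀ (f i)).mpr (h₀ i)
  have := hmax.isPrime
  obtain ⟨q, hq, hqm⟩ := Ideal.exists_minimalPrimes_le hI
  have hqp : q.IsPrime := hq.1.1
  have hne : q ≠ m := by
    intro he
    apply point_height y₀
    rw [← hm, ← he]
    refine (Ideal.height_le_card_of_mem_minimalPrimes_span (Set.finite_range f) hq).trans ?_
    have : (Set.range f).ncard ≤ 9 := by
      rw [← Set.image_univ]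
      refine (Set.ncard_image_le Set.finite_univ).trans ?_
      simp
    exact_mod_cast this
  let A := MvPolynomial (Fin 10) ℂ ⧸ q
  let K := FractionRing A
  let y : Fin 10 → K := fun i => algebraMap A K (Ideal.Quotient.mk q (X i))
  have hy : ∀ p : MvPolynomial (Fin 10) ℂ, aeval y p = algebraMap A K (Ideal.Quotient.mk q p) := by
    intro p
    have : (aeval y : MvPolynomial (Fin 10) ℂ →ₐ[ℂ] K) =
        (IsScalarTower.toAlgHom ℂ A K).comp (Ideal.Quotient.mkₐ ℂ q) := by
      apply MvPolynomial.algHom_ext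
      intro i
      simp only [aeval_X]
      rfl
    rw [this]
    rfl
  have hinj : Function.Injective (algebraMap A K) := IsFractionRing.injective A K
  have hyf : ∀ i, aeval y (f i) = 0 := by
    intro i
    rw [hy, Ideal.Quotient.eq_zero_iff_mem.mpr (hq.1.2 (Ideal.subset_span ⟨i, rfl⟩)), map_zero]
  have hyh : aeval y h ≠ 0 := by
    rw [hy]
    intro h1
    have h2 : h ∈ q := by
      rw [← Ideal.Quotient.eq_zero_iff_mem]
      exact hinj (by rw [h1, map_zero])
    exact hh₀ ((mem_vanishingIdeal_singleton_iff y₀ h).mp (hqm h2))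
  -- one of the first three coordinates is transcendental
  have hex : ∃ i : Fin 10, (i = 0 ∨ i = 1 ∨ i = 2) ∧ Transcendental ℂ (y i) := by
    by_contra hcon
    push Not at hcon
    have hr : ∀ i : Fin 10, (i = 0 ∨ i = 1 ∨ i = 2) → y i ∈ Set.range (algebraMap ℂ K) := by
      intro i hi
      have := hcon i hi
      rw [Transcendental, not_not] at this
      exact pt_range this
    have hall := hrig K y hyf hyh (hr 0 (by simp)) (hr 1 (by simp)) (hr 2 (by simp))
    choose c hc using hall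
    have hcq : ∀ i, (X i - C (c i) : MvPolynomial (Fin 10) ℂ) ∈ q := by
      intro i
      rw [← Ideal.Quotient.eq_zero_iff_mem]
      apply hinj
      rw [← hy, map_zero, map_sub, aeval_X, aeval_C, hc, sub_self]
    have hcy : c = y₀ := by
      ext i
      have h1 := hqm (hcq i)
      rw [hm, mem_vanishingIdeal_singleton_iff, map_sub, aeval_X, aeval_C] at h1
      have : y₀ i - c i = 0 := by simpa using h1
      exact (sub_eq_zero.mp this).symm
    apply hne
    refine le_antisymm hqm fun p hp => ?_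
    rw [← Ideal.Quotient.eq_zero_iff_mem]
    apply hinj
    rw [← hy, map_zero]
    have h2 : (y : Fin 10 → K) = fun i => algebraMap ℂ K (y₀ i) := by
      ext i
      rw [← hcy]
      exact (hc i).symm
    rw [h2]
    have h3 : aeval (fun i => algebraMap ℂ K (y₀ i)) p = algebraMap ℂ K (aeval y₀ p) :=
      MvPolynomial.aeval_algebraMap_apply K y₀ p
    rw [h3, (mem_vanishingIdeal_singleton_iff y₀ p).mp hp, map_zero]
  obtain ⟨i, hi, htr⟩ := hex
  obtain ⟨Ω, _, φ, ψ, hc, hTφ⟩ := exists_amalgam (y i) T htr hT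
  let Ψ : MvPolynomial (Fin 10) k →+* Ω := eval₂Hom ψ (fun j => φ (y j))
  have hΨ : ∀ p : MvPolynomial (Fin 10) ℂ, Ψ (map (algebraMap ℂ k) p) = φ (aeval y p) := by
    intro p
    show eval₂Hom ψ (fun j => φ (y j)) (map (algebraMap ℂ k) p) = φ (aeval y p)
    rw [eval₂Hom_map_hom]
    have : (eval₂Hom (ψ.comp (algebraMap ℂ k)) (fun j => φ (y j)) : MvPolynomial (Fin 10) ℂ →+* Ω) =
        φ.comp ((aeval y : MvPolynomial (Fin 10) ℂ →ₐ[ℂ] K) : MvPolynomial (Fin 10) ℂ →+* K) := by
      apply MvPolynomial.ringHom_ext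
      · intro c
        simp [hc]
      · intro l
        simp
    rw [this]
    rfl
  have hΨh : map (algebraMap ℂ k) h ∉ RingHom.ker Ψ := by
    rw [RingHom.mem_ker, hΨ]
    exact fun h1 => hyh ((map_eq_zero φ).mp h1)
  obtain ⟨M, hM, hle, hhM⟩ := pt_maximal _ (RingHom.ker_isPrime Ψ) _ hΨh
  obtain ⟨x, hx⟩ := isMaximal_iff_eq_vanishingIdeal_singleton.mp hM
  have hz : ∀ p, Ψ p = 0 → aeval x p = 0 := by
    intro p hp
    have : p ∈ M := hle ((RingHom.mem_ker).mpr hp)
    rw [hx] at this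
    exact (mem_vanishingIdeal_singleton_iff x p).mp this
  have hxT : x i = T := by
    have h1 := hz (X i - C T) (by
      show eval₂Hom ψ (fun j => φ (y j)) (X i - C T) = 0
      rw [map_sub, eval₂Hom_X', eval₂Hom_C, hTφ, sub_self])
    rw [map_sub, aeval_X, aeval_C] at h1
    exact sub_eq_zero.mp h1
  refine ⟨x, fun j => ?_, ?_, ?_⟩
  · have h1 := hz (map (algebraMap ℂ k) (f j)) (by rw [hΨ, hyf, map_zero])
    rwa [aeval_map_algebraMap] at h1
  · intro h1
    apply hhM
    rw [hx, mem_vanishingIdeal_singleton_iff, aeval_map_algebraMap]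
    exact h1
  · rcases hi with rfl | rfl | rfl
    · exact Or.inl hxT
    · exact Or.inr (Or.inl hxT)
    · exact Or.inr (Or.inr hxT)

end Pool.Agent.QX
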